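import Pool.Agent.H610R2.AF.T_MET
import Pool.Agent.H610R2.AF.T_CHR
import Pool.Agent.H610R2.AF.T_RIE
import Pool.Agent.H610R2.AF.T_GRAM
import Pool.Agent.H610R2.AF.T_CUR
import Pool.Agent.H610R2.AF.T_GRP
import Pool.Agent.H610R2.AF.T_ISOM
import Pool.Agent.H610R2.AF.T_FRE
import Pool.Agent.H610R2.AF.T_PRO
import Pool.Agent.H610R2.AF.T_COC
import Pool.Agent.H610R2.AF.T_SEG
import Pool.Agent.H610R2.AF.T_DIA
import Pool.Agent.H610R2.AF.T_NVN
import Pool.Agent.H610R2.AF.T_LIN
import Pool.Agent.H610R2.AF.T_COM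
import Pool.Agent.H610R2.AF.T_BIJ
import Pool.Agent.H610R2.AF.T_ISL
import Pool.Agent.H610R2.AF.T_FIN
import Pool.Agent.H610R2.AF.T_COV
import Pool.Agent.H610R2.AF.T_POW
import Pool.Agent.H610R2.AF.T_NON
import Pool.Agent.H610R2.AF.T_DAT
import Pool.Agent.H610R2.AF.T_ASM
import Pool.Agent.H610R2.AF.Infra

/-!
Upper bound for the optimal constant in the almost flat manifolds theorem.

Design: helper610 (idea of the examples also noted by helper876); proofs by helpers 676, 155, 62,
409, 732, 816, 963, 274, 34, 265, 25, 217, 939, 839, 418, 227, 496, 267, 687, 127, 852, 610.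
-/

open H610AF

namespace Pool.Agent.Results.MP_e7e442_gt.DiameterBound

/-- For every `d ≥ 3` and every `D > log φ / (2 ⌊(d-1)/2⌋)`, where `φ` is the golden ratio, there
are a `d`-dimensional real vector space `E`, a smooth Riemannian metric `g` on `E` with all
sectional curvatures between `-1` and `1`, and a group `Γ` of isometries of `(E, g)` which acts
freely and properly discontinuously with compact quotient `E / Γ`, such that any two points of the
quotient are joined by a path of length less than `D`, while `Γ` has no nilpotent subgroup of finite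
index and is not isomorphic to the fundamental group of any infranilmanifold. -/
theorem result (d : ℕ) (hd : 3 ≤ d) (D : ℝ)
    (hD : Real.log Real.goldenRatio / (2 * ((d - 1) / 2 : ℕ)) < D) :
    ∃ (E : Type) (_ : NormedAddCommGroup E) (_ : NormedSpace ℝ E) (_ : FiniteDimensional ℝ E),
      Module.finrank ℝ E = d ∧ ∃ (g : RMetric E) (Γ : Subgroup (Equiv.Perm E)),
        CurvBound g ∧ IsCompactForm g Γ ∧ DiamLT g Γ D ∧
        ¬ VirtuallyNilpotent Γ ∧ ¬ IsInfranilGroup Γ := by
  obtain ⟨E, i1, i2, i3, h1, g, Γ, h2, h3, h4, h5⟩ :=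
    t_ASM t_MET ⟨t_CHR, t_RIE, t_GRAM⟩ t_CUR t_GRP t_ISOM t_FRE t_PRO t_COC t_SEG t_DIA t_NVN
      ⟨t_LIN, t_COM, t_BIJ, t_ISL, t_FIN, t_COV, t_POW⟩ t_NON t_DAT d hd D hD
  exact ⟨E, i1, i2, i3, h1, g, Γ, h2, h3, h4, h5, fun h => h5 h.virtuallyNilpotent⟩

end Pool.Agent.Results.MP_e7e442_gt.DiameterBound
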